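import Pool.Agent.H.MP_a699c4_gt.Main

namespace Pool.Agent.Results.MP_a699c4_gt.No

open Pool.Agent.H.MP_a699c4_gt

theorem result : ∃ V : Set (EuclideanSpace ℝ (Fin 3 × Fin 3)), IsOpen V ∧
    (∀ γ : ℝ → EuclideanSpace ℝ (Fin 3 × Fin 3), IsSphereGeodesic γ → (∀ t, γ t ∈ V) →
      ∀ s t, γ s = γ t) ∧
    ∃ φ : EuclideanSpace ℝ (Fin 3) → EuclideanSpace ℝ (Fin 3 × Fin 3), IsSphereHarmonic φ ∧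
      (∀ x, ‖x‖ = 1 → φ x ∈ V) ∧ ∃ x y, ‖x‖ = 1 ∧ ‖y‖ = 1 ∧ φ x ≠ φ y :=
  main

end Pool.Agent.Results.MP_a699c4_gt.No
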